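import Pool.Agent.Lib.MP_c35b50_lc.Cm.EEnd2
import Pool.Agent.Lib.MP_c35b50_lc.Cm.DEx

universe v

namespace Pool.Agent.Results.MP_c35b50_lc.NowhereDiff

/-- For every prime `p` there are `α ∈ ℂ_p`, a ball and an algebraically closed subfield `M ⊆ ℂ_p` closed under
`x ↦ (1 + x)^α`, with `α ∉ M`, such that `(M, +, ·, v, (1 + x)^α)` is `C`-minimal. -/
theorem result (p : ℕ) [Fact p.Prime] : Cm.Answer.{v} p := by
  obtain ⟨α, M, h⟩ := Cm.exists_good p
  exact Cm.answer_of_good h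

end Pool.Agent.Results.MP_c35b50_lc.NowhereDiff
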